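import Pool.Agent.Helper45.AM.GoalsA
import Pool.Agent.Helper45.AM.Basic
import Pool.Agent.Helper15.AM.GoalsG

/-!
# Project AM: packet AM-AC. The coefficients `h w k z` for `k` in a parabolic subgroup.
-/

set_option autoImplicit false

open LaurentPolynomial Pool.Agent.Helper15.RA Pool.Agent.Helper45.AM

noncomputable section

namespace Pool.Agent.Helper18.AM

open Classical in
/-- the product `T_(x₁) (c_(g₁) c_k)`, up to terms of lower degree -/
theorem ac_term {S W H : Type} [Group W] [Ring H] [Algebra ℤ[T;T⁻¹] H]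
    (hG : Pool.Agent.Helper15.AM.G_PC) (hS : A_S) (hK : A_K) (hP : A_P)
    (X : Base S W H) (P : Set S) (α : W → ℕ) (pg : PG X.D X.h P α)
    {x₁ g₁ k x' g' : W} (h1 : XR X.cs P x₁) (h2 : g₁ ∈ par X.cs P) (h3 : k ∈ par X.cs P)
    (h4 : XR X.cs P x') (h5 : g' ∈ par X.cs P) :
    DegLE ((α g' : ℤ) - 1) (X.b.repr (X.D.t x₁ * (X.D.c g₁ * X.D.c k)) (x' * g') -
      if x' = x₁ then X.h g₁ k g' else 0) := by
  obtain ⟨_, _, _, _, _, hS6, _⟩ := hS S W H X P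
  obtain ⟨_, hP2, _⟩ := hP S W H X P α pg
  obtain ⟨hu, _⟩ := hG S W X.M X.cs P
  have key : X.b.repr (X.D.t x₁ * (X.D.c g₁ * X.D.c k)) (x' * g') =
      ∑ g₂ ∈ (X.h g₁ k).support, X.h g₁ k g₂ * X.b.repr (X.D.t x₁ * X.D.c g₂) (x' * g') := by
    rw [X.isH g₁ k, Finsupp.sum, Finset.mul_sum, map_sum, Finsupp.finsetSum_apply]
    refine Finset.sum_congr rfl fun g₂ _ => ?_
    rw [mul_smul_comm, map_smul, Finsupp.smul_apply, smul_eq_mul]
  have key2 : (if x' = x₁ then X.h g₁ k g' else 0) =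
      ∑ g₂ ∈ (X.h g₁ k).support, if (x' = x₁ ∧ g₂ = g') then X.h g₁ k g₂ else 0 := by
    by_cases h : x' = x₁
    · simp only [h, if_true, true_and]
      rw [Finset.sum_ite_eq']
      by_cases h6 : g' ∈ (X.h g₁ k).support
      · rw [if_pos h6]
      · rw [if_neg h6, Finsupp.notMem_support_iff.1 h6]
    · simp [h]
  rw [key, key2, ← Finset.sum_sub_distrib]
  refine DegLE.sum fun g₂ hg₂ => ?_
  have hne : X.h g₁ k g₂ ≠ 0 := Finsupp.mem_support_iff.1 hg₂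
  have hg2 : g₂ ∈ par X.cs P := hS6 g₁ h2 k h3 g₂ hne
  obtain ⟨hK1, hK2, hK3, _⟩ := hK S W H X P x₁ g₂ h1 hg2
  by_cases h : x' = x₁ ∧ g₂ = g'
  · rw [if_pos h, h.1, ← h.2, hK1, mul_one, sub_self]
    exact DegLE.zero _
  · rw [if_neg h, sub_zero]
    have hz : x' * g' ≠ x₁ * g₂ := fun h6 => by
      obtain ⟨h7, h8⟩ := hu x' x₁ g' g₂ h4 h1 h5 hg2 h6
      exact h ⟨h7, h8.symm⟩
    by_cases h0 : X.b.repr (X.D.t x₁ * X.D.c g₂) (x' * g') = 0
    · rw [h0, mul_zero]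
      exact DegLE.zero _
    · obtain ⟨x'', g'', h6, h7, h8, _, h9⟩ := hK3 _ hz h0
      obtain ⟨_, h10⟩ := hu x' x'' g' g'' h4 h6 h5 h7 h8
      rw [← h10] at h9
      have h11 := (hP2 g' g₂ hg2 h9).2
      refine DegLE.mul_le (pg.deg g₁ h2 k h3 g₂ hg2) (hK2 _ hz) ?_
      omega

open Classical in
/-- the coefficient `h (x g) k (x' g')`, up to terms of lower degree -/
theorem ac_right {S W H : Type} [Group W] [Ring H] [Algebra ℤ[T;T⁻¹] H]
    (hG : Pool.Agent.Helper15.AM.G_PC) (hB : A_B) (hS : A_S) (hK : A_K) (hP : A_P)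
    (X : Base S W H) (P : Set S) (α : W → ℕ) (pg : PG X.D X.h P α)
    {x g k x' g' : W} (h1 : XR X.cs P x) (h2 : g ∈ par X.cs P) (h3 : k ∈ par X.cs P)
    (h4 : XR X.cs P x') (h5 : g' ∈ par X.cs P) :
    DegLE ((α g' : ℤ) - 1) (X.h (x * g) k (x' * g') - if x' = x then X.h g k g' else 0) := by
  obtain ⟨hB1, _⟩ := hB S W H X
  obtain ⟨_, _, _, p, hp1, hp2, hp3⟩ := hK S W H X P x g h1 h2
  have key : X.h (x * g) k (x' * g') = X.b.repr (X.D.t x * (X.D.c g * X.D.c k)) (x' * g') +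
      ∑ r ∈ p.support, p r * X.b.repr (X.D.t r.1 * (X.D.c r.2 * X.D.c k)) (x' * g') := by
    rw [← hB1, hp3, add_mul, map_add, Finsupp.add_apply, mul_assoc, Finsupp.sum, Finset.sum_mul, map_sum,
      Finsupp.finsetSum_apply]
    refine congrArg _ (Finset.sum_congr rfl fun r _ => ?_)
    rw [smul_mul_assoc, map_smul, Finsupp.smul_apply, smul_eq_mul, mul_assoc]
  rw [key, add_sub_right_comm]
  refine (ac_term hG hS hK hP X P α pg h1 h2 h3 h4 h5).add (DegLE.sum fun r hr => ?_)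
  obtain ⟨h6, h7, _, _⟩ := hp2 r hr
  have h8 := ac_term hG hS hK hP X P α pg h6 h7 h3 h4 h5
  have h9 : DegLE (α g') (if x' = r.1 then X.h r.2 k g' else 0) := by
    split_ifs
    · exact pg.deg r.2 h7 k h3 g' h5
    · exact DegLE.zero _
  have h10 : DegLE (α g') (X.b.repr (X.D.t r.1 * (X.D.c r.2 * X.D.c k)) (x' * g')) := by
    have h11 := (h8.mono (show (α g' : ℤ) - 1 ≤ α g' by omega)).add h9
    rwa [sub_add_cancel] at h11
  exact DegLE.mul_le (hp1 r) h10 (by omega)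

theorem ac_coeff {p q : ℤ[T;T⁻¹]} {k : ℤ} (h : DegLE (k - 1) (p - q)) : p.coeff k = q.coeff k := by
  have h1 := h k (by omega)
  rw [AddMonoidAlgebra.coeff_sub, Finsupp.sub_apply] at h1
  exact sub_eq_zero.1 h1

theorem ac_part {S W H : Type} [Group W] [Ring H] [Algebra ℤ[T;T⁻¹] H]
    (hG : Pool.Agent.Helper15.AM.G_PC) (hB : A_B) (hS : A_S) (hK : A_K) (hP : A_P)
    (X : Base S W H) (P : Set S) (α : W → ℕ) (pg : PG X.D X.h P α)
    {x g k x' g' : W} (h1 : XR X.cs P x) (h2 : g ∈ par X.cs P) (h3 : k ∈ par X.cs P)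
    (h4 : XR X.cs P x') (h5 : g' ∈ par X.cs P) :
    DegLE (α g') (X.h (x * g) k (x' * g')) ∧
    (x' = x → (X.h (x * g) k (x' * g')).coeff (α g') = (X.h g k g').coeff (α g')) ∧
    (x' ≠ x → (X.h (x * g) k (x' * g')).coeff (α g') = 0) := by
  classical
  have h6 := ac_right hG hB hS hK hP X P α pg h1 h2 h3 h4 h5
  refine ⟨?_, fun h => ?_, fun h => ?_⟩
  · have h9 : DegLE (α g') (if x' = x then X.h g k g' else 0) := by
      split_ifs
      · exact pg.deg g h2 k h3 g' h5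
      · exact DegLE.zero _
    have h11 := (h6.mono (show (α g' : ℤ) - 1 ≤ α g' by omega)).add h9
    rwa [sub_add_cancel] at h11
  · have h7 := ac_coeff h6
    rwa [if_pos h] at h7
  · have h7 := ac_coeff h6
    rwa [if_neg h, AddMonoidAlgebra.coeff_zero, Finsupp.zero_apply] at h7

theorem h_a_c (hG : Pool.Agent.Helper15.AM.G_PC) (hB : A_B) (hS : A_S) (hM : A_M) (hK : A_K) (hP : A_P) :
    A_C := by
  intro S W H _ _ _ X P α pg
  refine ⟨fun x g k x' g' h1 h2 h3 h4 h5 => ac_part hG hB hS hK hP X P α pg h1 h2 h3 h4 h5, ?_⟩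
  intro g y k g' y' h1 h2 h3 h4 h5
  obtain ⟨_, hM1, hM2, _⟩ := hM S W H X
  obtain ⟨_, _, _, hP4, _⟩ := hP S W H X P α pg
  have h6 := ac_part hG hB hS hK hP X P α pg ((hM2 P y).1 h1) (inv_mem h2) (inv_mem h3) ((hM2 P y').1 h4)
    (inv_mem h5)
  rw [hP4 g' h5, ← mul_inv_rev, ← mul_inv_rev, ← hM1 k (g * y) (g' * y'), ← hM1 k g g'] at h6
  refine ⟨h6.1, fun h => h6.2.1 (by rw [h]), fun h => h6.2.2 fun h7 => h (inv_injective h7)⟩

end Pool.Agent.Helper18.AM
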